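import Mathlib

/-! Interval dynamics: horseshoe-type lemmas used for special alpha-limit sets. -/

namespace Q78.SpecialAlpha

open Set Filter Topology Function

/-- A continuous function going from below `c` to above `d` has a minimal crossing. -/
theorem exists_crossing (F : ℝ → ℝ) (hF : Continuous F) {a b c d : ℝ} (hab : a ≤ b) (hcd : c < d)
    (ha : F a ≤ c) (hb : d ≤ F b) :
    ∃ u v, a ≤ u ∧ u < v ∧ v ≤ b ∧ F u = c ∧ F v = d ∧ ∀ t ∈ Icc u v, F t ∈ Icc c d := by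
  -- first point where `F ≥ d`
  have hne : (Icc a b ∩ F ⁻¹' (Ici d)).Nonempty := ⟨b, ⟨hab, le_refl _⟩, hb⟩
  have hcomp : IsCompact (Icc a b ∩ F ⁻¹' (Ici d)) :=
    isCompact_Icc.inter_right (isClosed_Ici.preimage hF)
  obtain ⟨v, ⟨⟨hav, hvb⟩, hvd⟩, hvmin⟩ := hcomp.exists_isLeast hne
  have hv1 : ∀ t ∈ Ico a v, F t < d := by
    intro t ht
    by_contra hcon
    push Not at hcon
    have := hvmin ⟨⟨ht.1, ht.2.le.trans hvb⟩, hcon⟩
    exact absurd ht.2 (not_lt.2 this)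
  have hav' : a < v := by
    rcases hav.lt_or_eq with h | h
    · exact h
    · exfalso
      have : d ≤ F v := hvd
      rw [← h] at this
      linarith
  have hFv : F v = d := by
    refine le_antisymm ?_ hvd
    by_contra hcon
    push Not at hcon
    have hmem : d ∈ Icc (F a) (F v) := ⟨by linarith, hcon.le⟩
    obtain ⟨t, ht, htd⟩ := intermediate_value_Icc hav hF.continuousOn hmem
    rcases ht.2.lt_or_eq with h | h
    · exact absurd htd (hv1 t ⟨ht.1, h⟩).ne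
    · rw [h] at htd; linarith
  -- last point before `v` where `F ≤ c`
  have hne' : (Icc a v ∩ F ⁻¹' (Iic c)).Nonempty := ⟨a, ⟨le_refl _, hav⟩, ha⟩
  have hcomp' : IsCompact (Icc a v ∩ F ⁻¹' (Iic c)) :=
    isCompact_Icc.inter_right (isClosed_Iic.preimage hF)
  obtain ⟨u, ⟨⟨hau, huv⟩, huc⟩, humax⟩ := hcomp'.exists_isGreatest hne'
  have hu1 : ∀ t ∈ Ioc u v, c < F t := by
    intro t ht
    by_contra hcon
    push Not at hcon
    have := humax ⟨⟨hau.trans ht.1.le, ht.2⟩, hcon⟩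
    exact absurd ht.1 (not_lt.2 this)
  have huv' : u < v := by
    rcases huv.lt_or_eq with h | h
    · exact h
    · exfalso
      have : F u ≤ c := huc
      rw [h, hFv] at this
      linarith
  have hFu : F u = c := by
    refine le_antisymm huc ?_
    by_contra hcon
    push Not at hcon
    have hmem : c ∈ Icc (F u) (F v) := ⟨hcon.le, by rw [hFv]; exact hcd.le⟩
    obtain ⟨t, ht, htd⟩ := intermediate_value_Icc huv hF.continuousOn hmem
    rcases ht.1.lt_or_eq with h | h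
    · exact absurd htd (hu1 t ⟨h, ht.2⟩).ne'
    · rw [← h] at htd; linarith
  refine ⟨u, v, hau, huv', hvb, hFu, hFv, ?_⟩
  intro t ht
  constructor
  · rcases ht.1.lt_or_eq with h | h
    · exact (hu1 t ⟨h, ht.2⟩).le
    · rw [← h, hFu]
  · rcases ht.2.lt_or_eq with h | h
    · exact (hv1 t ⟨hau.trans ht.1, h⟩).le
    · rw [h, hFv]

/-- The decreasing version. -/
theorem exists_crossing_neg (F : ℝ → ℝ) (hF : Continuous F) {a b c d : ℝ} (hab : a ≤ b)
    (hcd : c < d) (ha : d ≤ F a) (hb : F b ≤ c) :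
    ∃ u v, a ≤ u ∧ u < v ∧ v ≤ b ∧ F u = d ∧ F v = c ∧ ∀ t ∈ Icc u v, F t ∈ Icc c d := by
  obtain ⟨u, v, h1, h2, h3, h4, h5, h6⟩ := exists_crossing (fun t => - F t) hF.neg hab
    (neg_lt_neg hcd) (neg_le_neg ha) (neg_le_neg hb)
  refine ⟨u, v, h1, h2, h3, neg_injective h4, neg_injective h5, ?_⟩
  intro t ht
  have := h6 t ht
  exact ⟨neg_le_neg_iff.1 this.2, neg_le_neg_iff.1 this.1⟩

section core

variable (F : ℝ → ℝ) (hF : Continuous F) {p1 p2 p3 : ℝ} (h12 : p1 < p2) (h23 : p2 < p3)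
  (e1 : F p1 = p2) (e2 : F p2 = p3) (e3 : F p3 = p1)

include hF h12 h23 e2 e3

/-- Following `B = [p2,p3]` for `k` steps. -/
theorem chainB (k : ℕ) (hk : 1 ≤ k) {c d : ℝ} (hc : p1 ≤ c) (hcd : c < d) (hd : d ≤ p3) :
    ∃ u v, p2 ≤ u ∧ u < v ∧ v ≤ p3 ∧ (∀ i < k, ∀ t ∈ Icc u v, F^[i] t ∈ Icc p2 p3) ∧
      (∀ t ∈ Icc u v, F^[k] t ∈ Icc c d) ∧
      ((Even k ∧ F^[k] u = c ∧ F^[k] v = d) ∨ (¬ Even k ∧ F^[k] u = d ∧ F^[k] v = c)) := by
  induction k, hk using Nat.le_induction generalizing c d with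
  | base =>
    obtain ⟨u, v, h1, h2, h3, h4, h5, h6⟩ := exists_crossing_neg F hF h23.le hcd
      (by rw [e2]; exact hd) (by rw [e3]; exact hc)
    refine ⟨u, v, h1, h2, h3, ?_, h6, Or.inr ⟨by decide, h4, h5⟩⟩
    intro i hi t ht
    have : i = 0 := by omega
    subst this
    exact ⟨h1.trans ht.1, ht.2.trans h3⟩
  | succ k hk ih =>
    obtain ⟨u', v', g1, g2, g3, g4, g5, g6⟩ := ih hc hcd hd
    obtain ⟨u, v, h1, h2, h3, h4, h5, h6⟩ := exists_crossing_neg F hF h23.le g2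
      (by rw [e2]; exact g3) (by rw [e3]; exact h12.le.trans g1)
    refine ⟨u, v, h1, h2, h3, ?_, ?_, ?_⟩
    · intro i hi t ht
      cases i with
      | zero => exact ⟨h1.trans ht.1, ht.2.trans h3⟩
      | succ i =>
        rw [iterate_succ_apply]
        exact g4 i (by omega) _ (h6 t ht)
    · intro t ht
      rw [iterate_succ_apply]
      exact g5 _ (h6 t ht)
    · rw [iterate_succ_apply, iterate_succ_apply, h4, h5]
      rcases g6 with ⟨ge, g7, g8⟩ | ⟨ge, g7, g8⟩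
      · exact Or.inr ⟨by rwa [Nat.even_add_one, not_not], g8, g7⟩
      · exact Or.inl ⟨by rwa [Nat.even_add_one], g8, g7⟩

include e1

/-- Following `A B^(n-1)`. -/
theorem blockAB (n : ℕ) (hn : 2 ≤ n) {c d : ℝ} (hc : p1 ≤ c) (hcd : c < d) (hd : d ≤ p3) :
    ∃ u v, p1 ≤ u ∧ u < v ∧ v ≤ p2 ∧
      (∀ i, 1 ≤ i → i < n → ∀ t ∈ Icc u v, F^[i] t ∈ Icc p2 p3) ∧
      (∀ t ∈ Icc u v, F^[n] t ∈ Icc c d) ∧
      ((Even (n - 1) ∧ F^[n] u = c ∧ F^[n] v = d) ∨
        (¬ Even (n - 1) ∧ F^[n] u = d ∧ F^[n] v = c)) := by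
  obtain ⟨n, rfl⟩ : ∃ m, n = m + 1 := ⟨n - 1, by omega⟩
  obtain ⟨u', v', g1, g2, g3, g4, g5, g6⟩ := chainB F hF h12 h23 e2 e3 n (by omega) hc hcd hd
  obtain ⟨u, v, h1, h2, h3, h4, h5, h6⟩ := exists_crossing F hF h12.le g2
    (by rw [e1]; exact g1) (by rw [e2]; exact g3)
  refine ⟨u, v, h1, h2, h3, ?_, ?_, ?_⟩
  · intro i hi1 hi t ht
    obtain ⟨i, rfl⟩ : ∃ m, i = m + 1 := ⟨i - 1, by omega⟩
    rw [iterate_succ_apply]
    exact g4 i (by omega) _ (h6 t ht)
  · intro t ht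
    rw [iterate_succ_apply]
    exact g5 _ (h6 t ht)
  · rw [iterate_succ_apply, iterate_succ_apply, h4, h5]
    simpa using g6

/-- The double loop. -/
theorem doubleAB (n : ℕ) (hn : 2 ≤ n) :
    ∃ u v, p1 ≤ u ∧ u < v ∧ v ≤ p2 ∧
      (∀ i, 1 ≤ i → i < 2 * n → i ≠ n → ∀ t ∈ Icc u v, F^[i] t ∈ Icc p2 p3) ∧
      F^[2 * n] u = p1 ∧ F^[2 * n] v = p3 := by
  obtain ⟨u', v', g1, g2, g3, g4, g5, g6⟩ := blockAB F hF h12 h23 e1 e2 e3 n hn
    (le_refl p1) (h12.trans h23) (le_refl p3)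
  obtain ⟨u, v, h1, h2, h3, h4, h5, h6⟩ := blockAB F hF h12 h23 e1 e2 e3 n hn
    g1 g2 (g3.trans h23.le)
  refine ⟨u, v, h1, h2, h3, ?_, ?_⟩
  · intro i hi1 hi hin t ht
    rcases lt_or_ge i n with h | h
    · exact h4 i hi1 h t ht
    · obtain ⟨j, rfl⟩ : ∃ j, i = j + n := ⟨i - n, by omega⟩
      rw [iterate_add_apply]
      exact g4 j (by omega) (by omega) _ (h5 t ht)
  · rw [two_mul, iterate_add_apply, iterate_add_apply]
    rcases h6 with ⟨he, h7, h8⟩ | ⟨he, h7, h8⟩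
    · rcases g6 with ⟨he', g7, g8⟩ | ⟨he', g7, g8⟩
      · rw [h7, h8]; exact ⟨g7, g8⟩
      · exact absurd he he'
    · rcases g6 with ⟨he', g7, g8⟩ | ⟨he', g7, g8⟩
      · exact absurd he' he
      · rw [h7, h8]; exact ⟨g8, g7⟩

end core

/-- Backward branches converging down to the largest fixed point. -/
theorem branch_down (G : ℝ → ℝ) (hG : Continuous G) {u v r : ℝ} (huv : u < v) (hu : G u ≤ u)
    (hv : v < r) (hGv : G v = r) :
    ∃ q, u ≤ q ∧ q < v ∧ G q = q ∧ ∀ y, q < y → y ≤ r → ∃ ys : ℕ → ℝ, ys 0 = y ∧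
      (∀ j, G (ys (j + 1)) = ys j) ∧ Tendsto ys atTop (𝓝 q) := by
  -- the largest point where `G t ≤ t`
  have hclosed : IsClosed {t : ℝ | G t ≤ t} := isClosed_le hG continuous_id
  have hcomp : IsCompact (Icc u v ∩ {t : ℝ | G t ≤ t}) := isCompact_Icc.inter_right hclosed
  obtain ⟨q, ⟨⟨huq, hqv⟩, hq⟩, hqmax⟩ := hcomp.exists_isGreatest ⟨u, ⟨le_refl _, huv.le⟩, hu⟩
  have hq' : G q ≤ q := hq
  have hqv' : q < v := by
    rcases hqv.lt_or_eq with h | h
    · exact h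
    · rw [h, hGv] at hq'; linarith
  have habove : ∀ t ∈ Ioc q v, t < G t := by
    intro t ht
    by_contra hcon
    push Not at hcon
    exact absurd ht.1 (not_lt.2 (hqmax ⟨⟨huq.trans ht.1.le, ht.2⟩, hcon⟩))
  have hfix : G q = q := by
    refine le_antisymm hq' ?_
    have h1 : Tendsto (fun t => G t - t) (𝓝[>] q) (𝓝 (G q - q)) :=
      ((hG.sub continuous_id).tendsto q).mono_left nhdsWithin_le_nhds
    have h2 : ∀ᶠ t in 𝓝[>] q, 0 ≤ G t - t := by
      have : Ioc q v ∈ 𝓝[>] q := Ioc_mem_nhdsGT hqv'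
      filter_upwards [this] with t ht
      linarith [habove t ht]
    have h3 : 0 ≤ G q - q := ge_of_tendsto h1 h2
    linarith
  refine ⟨q, huq, hqv', hfix, ?_⟩
  intro y hy hyr
  -- preimages
  have hpre : ∀ z, q < z ∧ z ≤ r → ∃ w, (q < w ∧ w ≤ v) ∧ G w = z ∧ w < z := by
    rintro z ⟨hz1, hz2⟩
    have hmem : z ∈ Icc (G q) (G v) := ⟨by rw [hfix]; exact hz1.le, by rw [hGv]; exact hz2⟩
    obtain ⟨w, hw, hwz⟩ := intermediate_value_Icc hqv'.le hG.continuousOn hmem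
    have hqw : q < w := by
      rcases hw.1.lt_or_eq with h | h
      · exact h
      · rw [← h, hfix] at hwz; linarith
    refine ⟨w, ⟨hqw, hw.2⟩, hwz, ?_⟩
    rw [← hwz]
    exact habove w ⟨hqw, hw.2⟩
  choose! g hg1 hg2 hg3 using hpre
  let ys : ℕ → ℝ := fun j => g^[j] y
  have hys : ∀ j, q < ys j ∧ ys j ≤ r := by
    intro j
    induction j with
    | zero => exact ⟨hy, hyr⟩
    | succ j ih =>
      have e : ys (j + 1) = g (ys j) := iterate_succ_apply' g j y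
      rw [e]
      have := hg1 (ys j) ih
      exact ⟨this.1, this.2.trans hv.le⟩
  have hstep : ∀ j, ys (j + 1) = g (ys j) := fun j => iterate_succ_apply' g j y
  have hG' : ∀ j, G (ys (j + 1)) = ys j := fun j => by rw [hstep]; exact hg2 _ (hys j)
  have hanti : Antitone ys := antitone_nat_of_succ_le fun j => by
    rw [hstep]; exact (hg3 _ (hys j)).le
  have hbdd : BddBelow (range ys) := ⟨q, by rintro _ ⟨j, rfl⟩; exact (hys j).1.le⟩
  have hlim := tendsto_atTop_ciInf hanti hbdd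
  set l := ⨅ i, ys i with hl
  have hlq : q ≤ l := le_ciInf fun j => (hys j).1.le
  have hlv : l ≤ v := (ciInf_le hbdd 1).trans (by
    have e : ys (0 + 1) = g (ys 0) := hstep 0
    show ys 1 ≤ v
    rw [show (1 : ℕ) = 0 + 1 from rfl, e]
    exact (hg1 _ (hys 0)).2)
  have hlfix : G l = l := by
    have h1 : Tendsto (fun j => G (ys (j + 1))) atTop (𝓝 (G l)) :=
      (hG.tendsto l).comp (hlim.comp (tendsto_add_atTop_nat 1))
    have h2 : Tendsto (fun j => G (ys (j + 1))) atTop (𝓝 l) := by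
      simp only [hG']; exact hlim
    exact tendsto_nhds_unique h1 h2
  have : l = q := by
    rcases hlq.lt_or_eq with h | h
    · exact absurd hlfix (habove l ⟨h, hlv⟩).ne'
    · exact h.symm
  exact ⟨ys, rfl, hG', this ▸ hlim⟩

/-- Backward branches converging up to the smallest fixed point. -/
theorem branch_up (G : ℝ → ℝ) (hG : Continuous G) {u v r : ℝ} (huv : u < v) (hv : v ≤ G v)
    (hu : r < u) (hGu : G u = r) :
    ∃ q, u < q ∧ q ≤ v ∧ G q = q ∧ ∀ y, y < q → r ≤ y → ∃ ys : ℕ → ℝ, ys 0 = y ∧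
      (∀ j, G (ys (j + 1)) = ys j) ∧ Tendsto ys atTop (𝓝 q) := by
  obtain ⟨q, h1, h2, h3, h4⟩ := branch_down (fun t => - G (-t)) (hG.comp continuous_neg).neg
    (u := -v) (v := -u) (r := -r) (neg_lt_neg huv) (by simpa using hv) (neg_lt_neg hu)
    (by simp [hGu])
  refine ⟨-q, by linarith, by linarith, ?_, ?_⟩
  · have h3' : - G (-q) = q := h3
    linarith
  · intro y hy hry
    obtain ⟨ys, g1, g2, g3⟩ := h4 (-y) (by linarith) (by linarith)
    refine ⟨fun j => - ys j, by simp [g1], ?_, g3.neg⟩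
    intro j
    have : - G (- ys (j + 1)) = ys j := g2 j
    show G (- ys (j + 1)) = - ys j
    linarith

/-- The core statement, for one orientation of the 3-cycle. -/
theorem core_pos (F : ℝ → ℝ) (hF : Continuous F) {p1 p2 p3 : ℝ} (h12 : p1 < p2) (h23 : p2 < p3)
    (e1 : F p1 = p2) (e2 : F p2 = p3) (e3 : F p3 = p1) (n : ℕ) (hn : 1 ≤ n) :
    ∃ q, (minimalPeriod F q = n ∨ minimalPeriod F q = 2 * n) ∧
      ∃ a b, a < p2 ∧ p2 < b ∧ ∀ y ∈ Ioo a b, ∃ ys : ℕ → ℝ, ys 0 = y ∧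
        (∀ j, F^[2 * n] (ys (j + 1)) = ys j) ∧ Tendsto ys atTop (𝓝 q) := by
  rcases hn.lt_or_eq with hn | hn
  · -- `n ≥ 2`
    obtain ⟨u, v, h1, h2, h3, h4, h5, h6⟩ := doubleAB F hF h12 h23 e1 e2 e3 n hn
    obtain ⟨q, g1, g2, g3, g4⟩ := branch_down (F^[2 * n]) (hF.iterate _) (r := p3) h2
      (by rw [h5]; exact h1) (lt_of_le_of_lt h3 h23) h6
    refine ⟨q, ?_, q, p3, lt_of_lt_of_le g2 h3, h23, fun y hy => g4 y hy.1 hy.2.le⟩
    have hper : IsPeriodicPt F (2 * n) q := g3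
    have hdvd := hper.minimalPeriod_dvd
    have hle := Nat.le_of_dvd (by omega) hdvd
    have hpos : 0 < minimalPeriod F q := hper.minimalPeriod_pos (by omega)
    by_contra hcon
    push Not at hcon
    have hB := h4 (minimalPeriod F q) hpos (lt_of_le_of_ne hle hcon.2) hcon.1 q ⟨g1, g2.le⟩
    rw [iterate_minimalPeriod] at hB
    have := hB.1
    linarith
  · subst hn
    obtain ⟨u, v, h1, h2, h3, h4, h5, h6⟩ := chainB F hF h12 h23 e2 e3 2 (by norm_num)
      (le_refl p1) (h12.trans h23) (le_refl p3)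
    rcases h6 with ⟨-, h7, h8⟩ | ⟨he, -, -⟩
    · obtain ⟨q, g1, g2, g3, g4⟩ := branch_up (F^[2]) (hF.iterate _) (r := p1) h2
        (by rw [h8]; exact h3) (lt_of_lt_of_le h12 h1) h7
      refine ⟨q, ?_, p1, q, h12, lt_of_le_of_lt h1 g1, fun y hy => g4 y hy.2 hy.1.le⟩
      have hper : IsPeriodicPt F 2 q := g3
      have hdvd := hper.minimalPeriod_dvd
      simpa using (Nat.dvd_prime Nat.prime_two).1 hdvd
    · exact absurd (by decide) he

/-- The core statement, for the other orientation of the 3-cycle. -/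
theorem core_neg (F : ℝ → ℝ) (hF : Continuous F) {p1 p2 p3 : ℝ} (h12 : p1 < p2) (h23 : p2 < p3)
    (e1 : F p1 = p3) (e2 : F p2 = p1) (e3 : F p3 = p2) (n : ℕ) (hn : 1 ≤ n) :
    ∃ q, (minimalPeriod F q = n ∨ minimalPeriod F q = 2 * n) ∧
      ∃ a b, a < p2 ∧ p2 < b ∧ ∀ y ∈ Ioo a b, ∃ ys : ℕ → ℝ, ys 0 = y ∧
        (∀ j, F^[2 * n] (ys (j + 1)) = ys j) ∧ Tendsto ys atTop (𝓝 q) := by
  set F' : ℝ → ℝ := fun t => - F (-t) with hF'
  have hsemi : ∀ k t, F'^[k] t = - F^[k] (-t) := by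
    intro k
    induction k with
    | zero => intro t; simp
    | succ k ih =>
      intro t
      rw [iterate_succ_apply, iterate_succ_apply, ih]
      simp [hF']
  obtain ⟨q, hq, a, b, ha, hb, hab⟩ := core_pos F' (hF.comp continuous_neg).neg
    (p1 := -p3) (p2 := -p2) (p3 := -p1) (neg_lt_neg h23) (neg_lt_neg h12)
    (by simp [hF', e3]) (by simp [hF', e2]) (by simp [hF', e1]) n hn
  refine ⟨-q, ?_, -b, -a, by linarith, by linarith, ?_⟩
  · have hmin : minimalPeriod F (-q) = minimalPeriod F' q := by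
      apply Nat.dvd_antisymm
      · apply IsPeriodicPt.minimalPeriod_dvd
        have := iterate_minimalPeriod (f := F') (x := q)
        rw [hsemi] at this
        show F^[minimalPeriod F' q] (-q) = -q
        linarith
      · apply IsPeriodicPt.minimalPeriod_dvd
        have := iterate_minimalPeriod (f := F) (x := -q)
        show F'^[minimalPeriod F (-q)] q = q
        rw [hsemi, this, neg_neg]
    rw [hmin]
    exact hq
  · intro y hy
    obtain ⟨ys, g1, g2, g3⟩ := hab (-y) ⟨by linarith [hy.2], by linarith [hy.1]⟩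
    refine ⟨fun j => - ys j, by simp [g1], ?_, g3.neg⟩
    intro j
    have := g2 j
    rw [hsemi] at this
    show F^[2 * n] (- ys (j + 1)) = - ys j
    linarith

end Q78.SpecialAlpha
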