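import Mathlib

/-! Order patterns of symmetric tent maps. -/

namespace Q78.Tent

open Set Filter Topology Function

/-- The tent map with slope `a`. -/
noncomputable def T (a x : ℝ) : ℝ := a * min x (1 - x)

theorem T_of_le {a x : ℝ} (h : x ≤ 1 / 2) : T a x = a * x := by
  unfold T; rw [min_eq_left (by linarith)]

theorem T_of_ge {a x : ℝ} (h : 1 / 2 ≤ x) : T a x = a * (1 - x) := by
  unfold T; rw [min_eq_right (by linarith)]

theorem continuous_iter (k : ℕ) : Continuous fun p : ℝ × ℝ => (T p.1)^[k] p.2 := by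
  induction k with
  | zero => exact continuous_snd
  | succ k ih =>
    have e : (fun p : ℝ × ℝ => (T p.1)^[k + 1] p.2) =
        fun p : ℝ × ℝ => p.1 * min ((T p.1)^[k] p.2) (1 - (T p.1)^[k] p.2) := by
      funext p
      rw [iterate_succ_apply']
      rfl
    rw [e]
    exact continuous_fst.mul (ih.min (continuous_const.sub ih))

theorem T_mem {a x : ℝ} (h0 : 0 ≤ a) (h2 : a ≤ 2) (hx : x ∈ Icc (0 : ℝ) 1) :
    T a x ∈ Icc (0 : ℝ) 1 := by
  obtain ⟨hx0, hx1⟩ := hx
  rcases le_total x (1 / 2) with h | h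
  · rw [T_of_le h]
    constructor <;> nlinarith
  · rw [T_of_ge h]
    constructor <;> nlinarith

theorem iter_mem {a x : ℝ} (h0 : 0 ≤ a) (h2 : a ≤ 2) (hx : x ∈ Icc (0 : ℝ) 1) (k : ℕ) :
    (T a)^[k] x ∈ Icc (0 : ℝ) 1 := by
  induction k with
  | zero => exact hx
  | succ k ih => rw [iterate_succ_apply']; exact T_mem h0 h2 ih

/-! ### Symbolic coordinates -/

def eps (b : Bool) : ℝ := if b then -1 else 1
def del (b : Bool) : ℝ := if b then 1 else 0

theorem eps_sq (b : Bool) : eps b * eps b = 1 := by cases b <;> simp [eps]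
theorem eps_del (b : Bool) : eps b * del b = - del b := by cases b <;> simp [eps, del]
theorem abs_eps (b : Bool) : |eps b| = 1 := by cases b <;> simp [eps]

def shift (w : ℕ → Bool) : ℕ → Bool := fun m => w (m + 1)

def sgn : (ℕ → Bool) → ℕ → ℝ
  | _, 0 => 1
  | w, k + 1 => eps (w 0) * sgn (shift w) k

theorem sgn_cases (w : ℕ → Bool) (k : ℕ) : sgn w k = 1 ∨ sgn w k = -1 := by
  induction k generalizing w with
  | zero => exact Or.inl rfl
  | succ k ih =>
    rcases ih (shift w) with h | h <;> cases hw : w 0 <;> simp [sgn, h, eps, hw]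

theorem abs_sgn (w : ℕ → Bool) (k : ℕ) : |sgn w k| = 1 := by
  rcases sgn_cases w k with h | h <;> simp [h]

noncomputable def term (w : ℕ → Bool) (a : ℝ) (k : ℕ) : ℝ := sgn w k * del (w k) * a⁻¹ ^ k

theorem abs_term_le (w : ℕ → Bool) {a : ℝ} (ha : 1 < a) (k : ℕ) : |term w a k| ≤ a⁻¹ ^ k := by
  have h0 : 0 ≤ a⁻¹ ^ k := by positivity
  unfold term
  rw [abs_mul, abs_mul, abs_sgn, abs_of_nonneg h0, one_mul]
  have : |del (w k)| ≤ 1 := by cases w k <;> simp [del]
  nlinarith

theorem summable_geo {a : ℝ} (ha : 1 < a) : Summable fun k : ℕ => a⁻¹ ^ k :=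
  summable_geometric_of_lt_one (by positivity) (inv_lt_one_of_one_lt₀ ha)

theorem summable_term (w : ℕ → Bool) {a : ℝ} (ha : 1 < a) : Summable (term w a) :=
  Summable.of_norm_bounded (summable_geo ha) fun k => by
    rw [Real.norm_eq_abs]; exact abs_term_le w ha k

/-- The point with formal itinerary `w`. -/
noncomputable def P (w : ℕ → Bool) (a : ℝ) : ℝ := ∑' k, term w a k

theorem P_succ (w : ℕ → Bool) {a : ℝ} (ha : 1 < a) :
    P w a = del (w 0) + eps (w 0) * a⁻¹ * P (shift w) a := by
  unfold P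
  rw [(summable_term w ha).tsum_eq_zero_add, ← tsum_mul_left]
  congr 1
  · simp [term, sgn]
  · congr 1
    funext k
    simp only [term, sgn, shift, pow_succ]
    ring

theorem abs_P_le (w : ℕ → Bool) {a : ℝ} (ha : 1 < a) : |P w a| ≤ ∑' k : ℕ, a⁻¹ ^ k := by
  unfold P
  have h := (summable_term w ha)
  have h1 : |∑' k, term w a k| ≤ ∑' k, |term w a k| := by
    have := norm_tsum_le_tsum_norm (f := term w a) (by
      exact Summable.of_nonneg_of_le (fun k => norm_nonneg _)
        (fun k => by rw [Real.norm_eq_abs]; exact abs_term_le w ha k) (summable_geo ha))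
    simpa [Real.norm_eq_abs] using this
  refine h1.trans (Summable.tsum_le_tsum (fun k => abs_term_le w ha k) ?_ (summable_geo ha))
  exact Summable.of_nonneg_of_le (fun k => abs_nonneg _) (fun k => abs_term_le w ha k)
    (summable_geo ha)

/-- The affine branch with label `b`. -/
noncomputable def A (b : Bool) (a y : ℝ) : ℝ := a * (del b + eps b * y)

theorem iterate_shift (w : ℕ → Bool) (m : ℕ) : shift^[m] w = fun k => w (m + k) := by
  induction m generalizing w with
  | zero => funext k; simp
  | succ m ih =>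
    rw [iterate_succ_apply, ih]
    funext k
    show w (m + k + 1) = w (m + 1 + k)
    congr 1
    ring

theorem orbit_formula (a : ℝ) (ha : 1 < a) (m : ℕ) (w : ℕ → Bool) (x : ℝ)
    (h : ∀ k < m, T a ((T a)^[k] x) = A (w k) a ((T a)^[k] x)) :
    (T a)^[m] x - P (shift^[m] w) a = sgn w m * a ^ m * (x - P w a) := by
  induction m generalizing w x with
  | zero => simp [sgn]
  | succ m ih =>
    have h0 := h 0 (by omega)
    simp only [iterate_zero, id] at h0
    have h1 := ih (shift w) (T a x) (fun k hk => by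
      have := h (k + 1) (by omega)
      rw [iterate_succ_apply] at this
      exact this)
    rw [iterate_succ_apply, iterate_succ_apply, h1, h0]
    have ha0 : a ≠ 0 := by linarith
    have hP := P_succ w ha
    have key : A (w 0) a x - P (shift w) a = eps (w 0) * a * (x - P w a) := by
      rw [hP]
      unfold A
      have e1 := eps_sq (w 0)
      have e2 := eps_del (w 0)
      have e3 : eps (w 0) * a * (x - (del (w 0) + eps (w 0) * a⁻¹ * P (shift w) a)) =
          eps (w 0) * a * x - a * (eps (w 0) * del (w 0)) -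
            (eps (w 0) * eps (w 0)) * (a * a⁻¹) * P (shift w) a := by ring
      rw [e3, e1, e2, mul_inv_cancel₀ ha0]
      ring
    rw [key]
    simp only [sgn, pow_succ]
    ring

theorem P_eq_of_itinerary (a : ℝ) (ha : 1 < a) (ha2 : a ≤ 2) (w : ℕ → Bool) (x : ℝ)
    (hx : x ∈ Icc (0 : ℝ) 1)
    (h : ∀ k, T a ((T a)^[k] x) = A (w k) a ((T a)^[k] x)) : P w a = x := by
  by_contra hne
  have hd : 0 < |x - P w a| := abs_pos.2 (sub_ne_zero.2 (Ne.symm hne))
  set M := ∑' k : ℕ, a⁻¹ ^ k with hM
  have hbound : ∀ m, a ^ m * |x - P w a| ≤ 1 + M := by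
    intro m
    have h1 := orbit_formula a ha m w x (fun k _ => h k)
    have h2 : |(T a)^[m] x - P (shift^[m] w) a| = a ^ m * |x - P w a| := by
      rw [h1, abs_mul, abs_mul, abs_sgn, one_mul, abs_of_nonneg (by positivity : 0 ≤ a ^ m)]
    rw [← h2]
    have h3 := iter_mem (by linarith) ha2 hx m
    have h4 : |(T a)^[m] x| ≤ 1 := abs_le.2 ⟨by linarith [h3.1], h3.2⟩
    have h5 := abs_P_le (shift^[m] w) ha
    have h6 := abs_sub ((T a)^[m] x) (P (shift^[m] w) a)
    linarith
  obtain ⟨m, hm⟩ := ((tendsto_pow_atTop_atTop_of_one_lt ha).eventually_gt_atTop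
    ((1 + M) / |x - P w a|)).exists
  have := hbound m
  rw [div_lt_iff₀ hd] at hm
  linarith

/-- The itinerary. -/
noncomputable def itin (a x : ℝ) : ℕ → Bool := fun k => decide (1 / 2 < (T a)^[k] x)

theorem itin_spec (a x : ℝ) (k : ℕ) :
    T a ((T a)^[k] x) = A (itin a x k) a ((T a)^[k] x) := by
  unfold itin A
  by_cases h : 1 / 2 < (T a)^[k] x
  · rw [T_of_ge h.le, decide_eq_true h]
    simp only [del, eps, if_true]
    ring
  · rw [T_of_le (not_lt.1 h), decide_eq_false h]
    simp only [del, eps, Bool.false_eq_true, if_false]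
    ring

theorem P_zero (a : ℝ) : P (fun _ => false) a = 0 := by
  unfold P term
  simp [del]

theorem sign_lemma {s t : ℝ} (hs : s = 1 ∨ s = -1) (ht : t = 1 ∨ t = -1) {a b : ℝ} (ha : 1 < a)
    (hb : 1 < b) {i j : ℕ} (hij : i ≠ j) : 0 < (s * a ^ i - t * a ^ j) * (s * b ^ i - t * b ^ j) := by
  have pa : ∀ k : ℕ, 0 < a ^ k := fun k => by positivity
  have pb : ∀ k : ℕ, 0 < b ^ k := fun k => by positivity
  have h1 := pa i
  have h2 := pa j
  have h3 := pb i
  have h4 := pb j
  rcases lt_or_gt_of_ne hij with h | h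
  · have ia := pow_lt_pow_right₀ ha h
    have ib := pow_lt_pow_right₀ hb h
    rcases hs with rfl | rfl <;> rcases ht with rfl | rfl
    · have : (1 * a ^ i - 1 * a ^ j) < 0 := by linarith
      have : (1 * b ^ i - 1 * b ^ j) < 0 := by linarith
      exact mul_pos_of_neg_of_neg ‹_› ‹_›
    · exact mul_pos (by linarith) (by linarith)
    · exact mul_pos_of_neg_of_neg (by linarith) (by linarith)
    · exact mul_pos (by linarith) (by linarith)
  · have ia := pow_lt_pow_right₀ ha h
    have ib := pow_lt_pow_right₀ hb h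
    rcases hs with rfl | rfl <;> rcases ht with rfl | rfl
    · exact mul_pos (by linarith) (by linarith)
    · exact mul_pos (by linarith) (by linarith)
    · exact mul_pos_of_neg_of_neg (by linarith) (by linarith)
    · exact mul_pos_of_neg_of_neg (by linarith) (by linarith)

/-- Near a point with parameter `a` (kneading orbit distinct up to time `n`), any order pattern
realised nearby is realised for the parameter `a`. -/
theorem local_lemma (n : ℕ) (a : ℝ) (ha : 1 < a) (ha2 : a ≤ 2)
    (hc : ∀ i j, i < j → j < n → (T a)^[i] (1 / 2) ≠ (T a)^[j] (1 / 2))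
    (π : Equiv.Perm (Fin n)) (x : ℝ) (hx : x ∈ Icc (0 : ℝ) 1) :
    ∀ᶠ p : ℝ × ℝ in 𝓝 (a, x), 1 < p.1 → p.2 ∈ Icc (0 : ℝ) 1 →
      (∀ i j : Fin n, π i < π j → (T p.1)^[i] p.2 < (T p.1)^[j] p.2) →
      ∃ y ∈ Icc (0 : ℝ) 1, ∀ i j : Fin n, π i < π j → (T a)^[i] y < (T a)^[j] y := by
  -- strict inequalities persist
  have hev : ∀ᶠ p : ℝ × ℝ in 𝓝 (a, x), ∀ i j : Fin n, (T a)^[i] x < (T a)^[j] x →
      (T p.1)^[i] p.2 < (T p.1)^[j] p.2 := by
    rw [eventually_all]
    intro i
    rw [eventually_all]
    intro j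
    by_cases h : (T a)^[i] x < (T a)^[j] x
    · have := (continuous_iter i).continuousAt.eventually_lt (continuous_iter j).continuousAt
        (show (fun p : ℝ × ℝ => (T p.1)^[i] p.2) (a, x) < (fun p : ℝ × ℝ => (T p.1)^[j] p.2) (a, x)
          from h)
      filter_upwards [this] with p hp _
      exact hp
    · exact Eventually.of_forall fun p hp => absurd hp h
  -- if there are no coincidences at `x`, we are done
  have hdist : (∀ i j : Fin n, i ≠ j → (T a)^[i] x ≠ (T a)^[j] x) →
      ∀ p : ℝ × ℝ, (∀ i j : Fin n, (T a)^[i] x < (T a)^[j] x →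
      (T p.1)^[i] p.2 < (T p.1)^[j] p.2) → 
      (∀ i j : Fin n, π i < π j → (T p.1)^[i] p.2 < (T p.1)^[j] p.2) →
      ∃ y ∈ Icc (0 : ℝ) 1, ∀ i j : Fin n, π i < π j → (T a)^[i] y < (T a)^[j] y := by
    intro hd p hp hπ
    refine ⟨x, hx, fun i j hij => ?_⟩
    have hne : i ≠ j := fun h => by rw [h] at hij; exact lt_irrefl _ hij
    rcases lt_or_gt_of_ne (hd i j hne) with h | h
    · exact h
    · exact absurd (hp j i h) (not_lt.2 (hπ i j hij).le)
  by_cases hhit : ∃ m < n, (T a)^[m] x = 1 / 2
  · -- the orbit hits the turning point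
    obtain ⟨m, hm, hmx⟩ := hhit
    have hd' : ∀ i j : ℕ, i < j → j < n → (T a)^[i] x ≠ (T a)^[j] x := by
      intro i j hij hj hcon
      rcases le_or_gt i m with h | h
      · apply hc 0 (j - i) (by omega) (by omega)
        have e1 : (T a)^[m - i] ((T a)^[i] x) = 1 / 2 := by
          rw [← iterate_add_apply, Nat.sub_add_cancel h, hmx]
        have e2 : (T a)^[m - i] ((T a)^[j] x) = (T a)^[j - i] (1 / 2) := by
          rw [← iterate_add_apply, ← hmx, ← iterate_add_apply]
          congr 1
          omega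
        rw [← hcon, e1] at e2
        exact e2
      · apply hc (i - m) (j - m) (by omega) (by omega)
        rw [← hmx, ← iterate_add_apply, ← iterate_add_apply, Nat.sub_add_cancel h.le,
          Nat.sub_add_cancel (by omega)]
        exact hcon
    have hd : ∀ i j : Fin n, i ≠ j → (T a)^[i] x ≠ (T a)^[j] x := by
      intro i j hij
      rcases lt_or_gt_of_ne hij with h | h
      · exact hd' i j h j.2
      · exact (hd' j i h i.2).symm
    filter_upwards [hev] with p hp _ _ hπ
    exact hdist hd p hp hπ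
  · push Not at hhit
    -- sides persist
    have hside : ∀ᶠ p : ℝ × ℝ in 𝓝 (a, x), ∀ m : Fin n,
        (1 / 2 < (T a)^[m] x → 1 / 2 < (T p.1)^[m] p.2) ∧
        ((T a)^[m] x < 1 / 2 → (T p.1)^[m] p.2 < 1 / 2) := by
      rw [eventually_all]
      intro m
      refine Eventually.and ?_ ?_
      · by_cases h : 1 / 2 < (T a)^[m] x
        · have := (continuous_iter m).continuousAt.eventually (lt_mem_nhds
            (show 1 / 2 < (fun p : ℝ × ℝ => (T p.1)^[m] p.2) (a, x) from h))
          filter_upwards [this] with p hp _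
          exact hp
        · exact Eventually.of_forall fun p hp => absurd hp h
      · by_cases h : (T a)^[m] x < 1 / 2
        · have := (continuous_iter m).continuousAt.eventually (gt_mem_nhds
            (show (fun p : ℝ × ℝ => (T p.1)^[m] p.2) (a, x) < 1 / 2 from h))
          filter_upwards [this] with p hp _
          exact hp
        · exact Eventually.of_forall fun p hp => absurd hp h
    set w := itin a x with hw
    have hPx : P w a = x := P_eq_of_itinerary a ha ha2 w x hx (itin_spec a x)
    -- formula for nearby points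
    have hform : ∀ p : ℝ × ℝ, (∀ m : Fin n,
        (1 / 2 < (T a)^[m] x → 1 / 2 < (T p.1)^[m] p.2) ∧
        ((T a)^[m] x < 1 / 2 → (T p.1)^[m] p.2 < 1 / 2)) → 1 < p.1 → ∀ i : Fin n,
        (T p.1)^[i] p.2 = P (shift^[i] w) p.1 + sgn w i * p.1 ^ (i : ℕ) * (p.2 - P w p.1) := by
      intro p hp hp1 i
      have := orbit_formula p.1 hp1 i w p.2 (fun k hk => by
        have hkn : k < n := hk.trans i.2
        obtain ⟨g1, g2⟩ := hp ⟨k, hkn⟩
        simp only at g1 g2
        rw [hw]
        unfold itin A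
        rcases lt_or_gt_of_ne (hhit k hkn) with h | h
        · have h' : ¬ (1 / 2 < (T a)^[k] x) := not_lt.2 h.le
          rw [T_of_le (g2 h).le, decide_eq_false h']
          simp only [del, eps, Bool.false_eq_true, if_false]
          ring
        · rw [T_of_ge (g1 h).le, decide_eq_true h]
          simp only [del, eps, if_true]
          ring)
      linarith
    have hcoin : ∀ i j : Fin n, (T a)^[i] x = (T a)^[j] x → shift^[i] w = shift^[j] w := by
      intro i j hij
      rw [iterate_shift, iterate_shift]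
      funext k
      rw [hw]
      unfold itin
      have e : ∀ i : ℕ, (T a)^[i + k] x = (T a)^[k] ((T a)^[i] x) := by
        intro i
        rw [add_comm, iterate_add_apply]
      rw [e, e, hij]
    -- near `x`, for the parameter `a`
    have hevx : ∀ᶠ y in 𝓝 x, (∀ i j : Fin n, (T a)^[i] x < (T a)^[j] x →
        (T a)^[i] y < (T a)^[j] y) ∧ ∀ m : Fin n,
        (1 / 2 < (T a)^[m] x → 1 / 2 < (T a)^[m] y) ∧
        ((T a)^[m] x < 1 / 2 → (T a)^[m] y < 1 / 2) := by
      have hcont : Tendsto (fun y : ℝ => (a, y)) (𝓝 x) (𝓝 (a, x)) := by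
        exact (Continuous.prodMk_right a).tendsto x
      filter_upwards [hcont.eventually hev, hcont.eventually hside] with y h1 h2
      exact ⟨h1, h2⟩
    filter_upwards [hev, hside] with p hp hps hp1 hp2 hπ
    -- the main claim for a good nearby `y`
    have hmain : ∀ y, y ∈ Icc (0 : ℝ) 1 → (∀ i j : Fin n, (T a)^[i] x < (T a)^[j] x →
        (T a)^[i] y < (T a)^[j] y) → (∀ m : Fin n,
        (1 / 2 < (T a)^[m] x → 1 / 2 < (T a)^[m] y) ∧
        ((T a)^[m] x < 1 / 2 → (T a)^[m] y < 1 / 2)) →
        0 < (y - x) * (p.2 - P w p.1) →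
        ∃ y ∈ Icc (0 : ℝ) 1, ∀ i j : Fin n, π i < π j → (T a)^[i] y < (T a)^[j] y := by
      intro y hy hy1 hy2 hy3
      refine ⟨y, hy, fun i j hij => ?_⟩
      have hne : i ≠ j := fun h => by rw [h] at hij; exact lt_irrefl _ hij
      rcases lt_trichotomy ((T a)^[i] x) ((T a)^[j] x) with h | h | h
      · exact hy1 i j h
      · have e := hcoin i j h
        have f1 := hform p hps hp1 i
        have f2 := hform p hps hp1 j
        have f3 := hform (a, y) hy2 ha i
        have f4 := hform (a, y) hy2 ha j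
        simp only at f3 f4
        rw [hPx] at f3 f4
        have hlt := hπ i j hij
        rw [f1, f2, e] at hlt
        rw [f3, f4, e]
        have hsl := sign_lemma (sgn_cases w i) (sgn_cases w j) ha hp1
          (i := i) (j := j) (fun h => hne (Fin.ext h))
        set Q := sgn w i * a ^ (i : ℕ) - sgn w j * a ^ (j : ℕ) with hQ
        set R := sgn w i * p.1 ^ (i : ℕ) - sgn w j * p.1 ^ (j : ℕ) with hR
        have g1 : R * (p.2 - P w p.1) < 0 := by
          rw [hR, sub_mul]; linarith
        have g2 : Q * (y - x) < 0 := by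
          by_contra hcon
          push Not at hcon
          -- (Q R) * ((y-x)(p-P)) > 0 but equals (R (p-P)) * (Q (y-x)) ≤ 0
          have h1 : 0 < (Q * R) * ((y - x) * (p.2 - P w p.1)) := mul_pos hsl hy3
          have h2 : (Q * R) * ((y - x) * (p.2 - P w p.1)) =
            (R * (p.2 - P w p.1)) * (Q * (y - x)) := by ring
          rw [h2] at h1
          exact absurd h1 (not_lt.2 (mul_nonpos_of_nonpos_of_nonneg g1.le hcon))
        have : Q * (y - x) = sgn w i * a ^ (i : ℕ) * (y - x) - sgn w j * a ^ (j : ℕ) * (y - x) := by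
          rw [hQ, sub_mul]
        linarith
      · exact absurd (hp j i h) (not_lt.2 (hπ i j hij).le)
    rcases lt_trichotomy (p.2 - P w p.1) 0 with hτ | hτ | hτ
    · -- move to the left
      have hx0 : 0 < x := by
        rcases hx.1.lt_or_eq with h | h
        · exact h
        · exfalso
          have h0 : ∀ k, (T a)^[k] (0 : ℝ) = 0 := by
            intro k
            induction k with
            | zero => rfl
            | succ k ih => rw [iterate_succ_apply', ih, T_of_le (by norm_num), mul_zero]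
          have hw0 : w = fun _ => false := by
            funext k
            rw [hw]
            unfold itin
            rw [← h, h0]
            norm_num
          rw [hw0, P_zero] at hτ
          linarith [hp2.1]
      have h1 : ∀ᶠ y in 𝓝[<] x, y ∈ Ioo 0 x := Ioo_mem_nhdsLT hx0
      obtain ⟨y, ⟨hy1, hy2⟩, hy3⟩ := ((hevx.filter_mono nhdsWithin_le_nhds).and h1).exists
      exact hmain y ⟨hy3.1.le, hy3.2.le.trans hx.2⟩ hy1 hy2
        (mul_pos_of_neg_of_neg (by linarith [hy3.2]) hτ)
    · -- no coincidences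
      refine hdist ?_ p hp hπ
      intro i j hij hcon
      have e := hcoin i j hcon
      have f1 := hform p hps hp1 i
      have f2 := hform p hps hp1 j
      rw [hτ, mul_zero, add_zero] at f1 f2
      rw [e, ← f2] at f1
      have hne : π i ≠ π j := fun h => hij (π.injective h)
      rcases lt_or_gt_of_ne hne with h | h
      · exact absurd f1 (hπ i j h).ne
      · exact absurd f1 (hπ j i h).ne'
    · -- move to the right
      have hx1 : x < 1 := by
        rcases hx.2.lt_or_eq with h | h
        · exact h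
        · exfalso
          have h0 : ∀ k, (T a)^[k] (0 : ℝ) = 0 := by
            intro k
            induction k with
            | zero => rfl
            | succ k ih => rw [iterate_succ_apply', ih, T_of_le (by norm_num), mul_zero]
          have hT1 : T a 1 = 0 := by rw [T_of_ge (by norm_num)]; ring
          have hws : shift w = fun _ => false := by
            funext k
            show w (k + 1) = false
            rw [hw]
            unfold itin
            rw [h, iterate_succ_apply, hT1, h0]
            norm_num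
          have hw0 : w 0 = true := by
            rw [hw]
            unfold itin
            rw [h]
            norm_num
          have : P w p.1 = 1 := by
            rw [P_succ w hp1, hws, P_zero, hw0]
            simp [del]
          rw [this] at hτ
          linarith [hp2.2]
      have h1 : ∀ᶠ y in 𝓝[>] x, y ∈ Ioo x 1 := Ioo_mem_nhdsGT hx1
      obtain ⟨y, ⟨hy1, hy2⟩, hy3⟩ := ((hevx.filter_mono nhdsWithin_le_nhds).and h1).exists
      exact hmain y ⟨hx.1.trans hy3.1.le, hy3.2.le⟩ hy1 hy2
        (mul_pos (by linarith [hy3.1]) hτ)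

/-- Continuation of patterns from the full tent map. -/
theorem continuation (n : ℕ) (b : ℝ) (hb : 1 < b) (hb2 : b ≤ 2)
    (hc : ∀ a, b ≤ a → a < 2 → ∀ i j, i < j → j < n → (T a)^[i] (1 / 2) ≠ (T a)^[j] (1 / 2))
    (π : Equiv.Perm (Fin n))
    (h2 : ∃ x ∈ Icc (0 : ℝ) 1, ∀ i j : Fin n, π i < π j → (T 2)^[i] x < (T 2)^[j] x) :
    ∃ x ∈ Icc (0 : ℝ) 1, ∀ i j : Fin n, π i < π j → (T b)^[i] x < (T b)^[j] x := by
  by_contra hcon
  let S : Set ℝ := {a | ∃ x ∈ Icc (0 : ℝ) 1, ∀ i j : Fin n, π i < π j →
    (T a)^[i] x < (T a)^[j] x}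
  have hSopen : IsOpen S := by
    have e : S = ⋃ x ∈ Icc (0 : ℝ) 1, {a | ∀ i j : Fin n, π i < π j →
        (T a)^[i] x < (T a)^[j] x} := by
      ext a
      simp [S]
    rw [e]
    refine isOpen_biUnion fun x _ => ?_
    have e2 : {a : ℝ | ∀ i j : Fin n, π i < π j → (T a)^[i] x < (T a)^[j] x} =
        ⋂ i : Fin n, ⋂ j : Fin n, ⋂ _ : π i < π j, {a : ℝ | (T a)^[i] x < (T a)^[j] x} := by
      ext a; simp
    rw [e2]
    refine isOpen_iInter_of_finite fun i => isOpen_iInter_of_finite fun j =>
      isOpen_iInter_of_finite fun _ => ?_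
    have hcont : ∀ k : ℕ, Continuous fun a : ℝ => (T a)^[k] x := fun k =>
      (continuous_iter k).comp (Continuous.prodMk_left x)
    exact isOpen_lt (hcont i) (hcont j)
  have hbS : b ∉ S := hcon
  have hcomp : IsCompact (Icc b 2 ∩ Sᶜ) := isCompact_Icc.inter_right hSopen.isClosed_compl
  obtain ⟨m, ⟨⟨hbm, hm2⟩, hmS⟩, hmax⟩ := hcomp.exists_isGreatest ⟨b, ⟨le_refl _, hb2⟩, hbS⟩
  have hm2' : m < 2 := by
    rcases hm2.lt_or_eq with h | h
    · exact h
    · exact absurd (h ▸ h2) hmS
  have habove : ∀ a ∈ Ioc m 2, a ∈ S := by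
    intro a ha
    by_contra hcon
    exact absurd ha.1 (not_lt.2 (hmax ⟨⟨hbm.trans ha.1.le, ha.2⟩, hcon⟩))
  -- a sequence of parameters
  let as : ℕ → ℝ := fun k => m + (2 - m) / (k + 1)
  have has : ∀ k, as k ∈ Ioc m 2 := by
    intro k
    have hk : (0 : ℝ) < k + 1 := by positivity
    have h1 : 0 < (2 - m) / (k + 1) := div_pos (by linarith) hk
    have h3 : (2 - m) / (k + 1) ≤ 2 - m := div_le_self (by linarith) (by linarith [Nat.cast_nonneg (α := ℝ) k])
    exact ⟨by simp only [as]; linarith, by simp only [as]; linarith⟩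
  have hlim : Tendsto as atTop (𝓝 m) := by
    have : Tendsto (fun k : ℕ => (2 - m) / ((k : ℝ) + 1)) atTop (𝓝 0) := by
      refine Tendsto.div_atTop tendsto_const_nhds ?_
      exact tendsto_atTop_add_const_right _ _ tendsto_natCast_atTop_atTop
    have h2 := this.const_add m
    rw [add_zero] at h2
    exact h2
  choose xs hxs hxs2 using fun k => habove (as k) (has k)
  obtain ⟨x, hx, φ, hφ, hφlim⟩ := isCompact_Icc.tendsto_subseq hxs
  have hpair : Tendsto (fun k => (as (φ k), xs (φ k))) atTop (𝓝 (m, x)) := by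
    rw [nhds_prod_eq]
    exact (hlim.comp hφ.tendsto_atTop).prodMk hφlim
  have hloc := local_lemma n m (lt_of_lt_of_le hb hbm) hm2 (hc m hbm hm2') π x hx
  obtain ⟨k, hk⟩ := (hpair.eventually hloc).exists
  exact hmS (hk (lt_of_le_of_lt (le_trans hb.le hbm) (has _).1) (hxs _) (hxs2 _))

/-! ### The kneading orbit -/

theorem crit_orbit (a : ℝ) (ha : 1 < a) (ha2 : a < 2) (N : ℕ) (h : a ^ N * (2 - a) < 1) :
    ∀ k, k ≤ N → (T a)^[k + 1] (1 / 2) = if k = 0 then a / 2 else a ^ k * (2 - a) / 2 := by
  intro k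
  induction k with
  | zero =>
    intro _
    simp only [zero_add, iterate_one, if_true]
    rw [T_of_le (le_refl _)]
    ring
  | succ k ih =>
    intro hk
    rw [iterate_succ_apply', ih (by omega)]
    by_cases hk0 : k = 0
    · subst hk0
      simp only [if_true]
      rw [T_of_ge (by linarith)]
      simp
      ring
    · have hle : a ^ k ≤ a ^ N := pow_le_pow_right₀ ha.le (by omega)
      have : a ^ k * (2 - a) / 2 ≤ 1 / 2 := by
        have : a ^ k * (2 - a) ≤ a ^ N * (2 - a) :=
          mul_le_mul_of_nonneg_right hle (by linarith)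
        linarith
      simp only [hk0, if_false]
      rw [T_of_le this]
      simp [pow_succ]
      ring

theorem crit_distinct (a : ℝ) (ha : 1 < a) (ha2 : a < 2) (n : ℕ) (h : a ^ (n - 2) * (2 - a) < 1) :
    ∀ i j, i < j → j < n → (T a)^[i] (1 / 2) ≠ (T a)^[j] (1 / 2) := by
  intro i j hij hj
  have hval := crit_orbit a ha ha2 (n - 2) h
  obtain ⟨j, rfl⟩ : ∃ j', j = j' + 1 := ⟨j - 1, by omega⟩
  rw [hval j (by omega)]
  have hsmall : ∀ k, k ≤ n - 2 → a ^ k * (2 - a) / 2 < 1 / 2 := by
    intro k hk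
    have hle : a ^ k ≤ a ^ (n - 2) := pow_le_pow_right₀ ha.le hk
    have : a ^ k * (2 - a) ≤ a ^ (n - 2) * (2 - a) :=
      mul_le_mul_of_nonneg_right hle (by linarith)
    linarith
  rcases Nat.eq_zero_or_pos i with hi | hi
  · subst hi
    simp only [iterate_zero, id]
    by_cases hj0 : j = 0
    · simp only [hj0, if_true]
      intro hcon
      linarith
    · simp only [hj0, if_false]
      exact (hsmall j (by omega)).ne'
  · obtain ⟨i, rfl⟩ : ∃ i', i = i' + 1 := ⟨i - 1, by omega⟩
    rw [hval i (by omega)]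
    have hj0 : j ≠ 0 := by omega
    simp only [hj0, if_false]
    by_cases hi0 : i = 0
    · simp only [hi0, if_true]
      have := hsmall j (by omega)
      intro hcon
      linarith
    · simp only [hi0, if_false]
      have hlt : a ^ i < a ^ j := pow_lt_pow_right₀ ha (by omega)
      have : a ^ i * (2 - a) < a ^ j * (2 - a) := mul_lt_mul_of_pos_right hlt (by linarith)
      intro hcon
      linarith

theorem cond_iff (N : ℕ) (a : ℝ) (ha : 1 < a) :
    a ^ N * (2 - a) < 1 ↔ ∑ k ∈ Finset.range N, a ^ k < a ^ N := by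
  have hg : (∑ k ∈ Finset.range N, a ^ k) * (a - 1) = a ^ N - 1 := geom_sum_mul a N
  constructor
  · intro h
    by_contra hcon
    push Not at hcon
    have := mul_le_mul_of_nonneg_right hcon (by linarith : 0 ≤ a - 1)
    rw [hg] at this
    nlinarith
  · intro h
    have := mul_lt_mul_of_pos_right h (by linarith : 0 < a - 1)
    rw [hg] at this
    nlinarith

theorem cond_mono (N : ℕ) {a b : ℝ} (hb : 1 < b) (hab : b ≤ a) (h : b ^ N * (2 - b) < 1) :
    a ^ N * (2 - a) < 1 := by
  rw [cond_iff N a (lt_of_lt_of_le hb hab)]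
  rw [cond_iff N b hb] at h
  have hb0 : 0 < b := by linarith
  have hr : 1 ≤ a / b := (one_le_div hb0).2 hab
  have h1 : ∀ k ∈ Finset.range N, a ^ k ≤ (a / b) ^ N * b ^ k := by
    intro k hk
    have hk' : k ≤ N := (Finset.mem_range.1 hk).le
    have e : a ^ k = (a / b) ^ k * b ^ k := by
      rw [← mul_pow, div_mul_cancel₀ a hb0.ne']
    rw [e]
    exact mul_le_mul_of_nonneg_right (pow_le_pow_right₀ hr hk') (by positivity)
  calc ∑ k ∈ Finset.range N, a ^ k ≤ ∑ k ∈ Finset.range N, (a / b) ^ N * b ^ k :=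
        Finset.sum_le_sum h1
    _ = (a / b) ^ N * ∑ k ∈ Finset.range N, b ^ k := by rw [Finset.mul_sum]
    _ < (a / b) ^ N * b ^ N := mul_lt_mul_of_pos_left h (by positivity)
    _ = a ^ N := by rw [← mul_pow, div_mul_cancel₀ a hb0.ne']

/-- The pattern `sigma` forces the inequality. -/
theorem sigma_forces (a : ℝ) (ha : 1 < a) (ha2 : a < 2) (n : ℕ) (hn : 3 ≤ n) (x : ℝ)
    (hx : x ∈ Icc (0 : ℝ) 1)
    (hinc : ∀ k, 2 ≤ k → k + 1 < n → (T a)^[k] x < (T a)^[k + 1] x)
    (hlast : (T a)^[n - 1] x < x) (h01 : x < T a x) (h21 : (T a)^[2] x < T a x) :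
    a ^ (n - 2) * (2 - a) < 1 := by
  set y : ℕ → ℝ := fun k => (T a)^[k] x with hy
  have hmem : ∀ k, y k ∈ Icc (0 : ℝ) 1 := fun k => iter_mem (by linarith) ha2.le hx k
  have hstep : ∀ k, y (k + 1) = T a (y k) := fun k => iterate_succ_apply' _ _ _
  have hTle : ∀ t : ℝ, T a t ≤ a * (1 - t) := by
    intro t
    unfold T
    exact mul_le_mul_of_nonneg_left (min_le_right _ _) (by linarith)
  have hx0 : (1 + a) * x < a := by
    have := hTle x
    linarith
  have hT1 : T a x ≤ a / 2 := by
    rcases le_total x (1 / 2) with h | h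
    · rw [T_of_le h]; nlinarith
    · rw [T_of_ge h]; nlinarith
  have hy1 : 1 / 2 < T a x := by
    by_contra hcon
    push Not at hcon
    have h2 : (T a)^[2] x = a * (T a x) := T_of_le hcon
    rw [h2] at h21
    have : 0 ≤ T a x := (T_mem (by linarith) ha2.le hx).1
    nlinarith
  have hy2 : (T a)^[2] x = a * (1 - T a x) := T_of_ge hy1.le
  -- monotone up to n-1
  have hmono : ∀ d k, 2 ≤ k → k + d < n → y k ≤ y (k + d) := by
    intro d
    induction d with
    | zero => intro k _ _; exact le_refl _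
    | succ d ih =>
      intro k hk hkd
      exact (ih k hk (by omega)).trans (hinc (k + d) (by omega) (by omega)).le
  have hyx : ∀ k, 2 ≤ k → k < n → y k < x := by
    intro k hk hkn
    have := hmono (n - 1 - k) k hk (by omega)
    have e : k + (n - 1 - k) = n - 1 := by omega
    rw [e] at this
    exact lt_of_le_of_lt this hlast
  have hhalf : ∀ k, 2 ≤ k → k + 1 < n → y (k + 1) = a * y k := by
    intro k hk hkn
    rw [hstep]
    apply T_of_le
    by_contra hcon
    push Not at hcon
    have h1 : y (k + 1) = a * (1 - y k) := by rw [hstep]; exact T_of_ge hcon.le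
    have h2 := hyx k hk (by omega)
    have h3 := hyx (k + 1) (by omega) hkn
    rw [h1] at h3
    nlinarith
  have hpow : ∀ k, k + 2 < n → y (k + 2) = a ^ k * y 2 := by
    intro k
    induction k with
    | zero => intro _; simp
    | succ k ih =>
      intro hk
      have := hhalf (k + 2) (by omega) (by omega)
      rw [show k + 1 + 2 = k + 2 + 1 by ring, this, ih (by omega), pow_succ]
      ring
  have hlast' : (T a)^[n - 1] x = a ^ (n - 3) * (a * (1 - T a x)) := by
    have := hpow (n - 3) (by omega)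
    rw [show n - 3 + 2 = n - 1 by omega] at this
    rw [← hy2]
    exact this
  rw [hlast'] at hlast
  have e : a ^ (n - 2) = a ^ (n - 3) * a := by
    rw [← pow_succ]; congr 1; omega
  have hp : 0 < a ^ (n - 3) := by positivity
  rcases le_total x (1 / 2) with h | h
  · have h1 : a ^ (n - 3) * (a * (1 - a / 2)) ≤ a ^ (n - 3) * (a * (1 - T a x)) := by
      apply mul_le_mul_of_nonneg_left _ hp.le
      apply mul_le_mul_of_nonneg_left _ (by linarith)
      linarith
    rw [e]
    nlinarith
  · rw [T_of_ge h] at hlast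
    set q := a ^ (n - 3) with hq
    have hq1 : 1 ≤ q := one_le_pow₀ ha.le
    -- q a (1 - a (1-x)) < x, with 1 - x ≤ 1/2
    rw [e]
    have h5 : q * a * a > 1 := by nlinarith
    nlinarith

/-- For the full tent map the pattern `sigma` is realised. -/
theorem sigma_full (n : ℕ) (hn : 2 ≤ n) : ∃ x ∈ Icc (0 : ℝ) 1,
    (∀ k, 2 ≤ k → k + 1 < n → (T 2)^[k] x < (T 2)^[k + 1] x) ∧
    (∀ k, 2 ≤ k → k < n → (T 2)^[k] x < x) ∧ x < T 2 x := by
  set e : ℝ := 1 / 2 ^ (n + 1) with he
  have hepos : 0 < e := by positivity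
  have he8 : e ≤ 1 / 8 := by
    rw [he]
    apply one_div_le_one_div_of_le (by norm_num)
    calc (8 : ℝ) = 2 ^ 3 := by norm_num
      _ ≤ 2 ^ (n + 1) := pow_le_pow_right₀ (by norm_num) (by omega)
  have h0 : T 2 (1 / 2 - e) = 1 - 2 * e := by
    rw [T_of_le (by linarith)]; ring
  have hk : ∀ k, k + 2 ≤ n → (T 2)^[k + 2] (1 / 2 - e) = 2 ^ (k + 2) * e := by
    intro k
    induction k with
    | zero =>
      intro _
      show T 2 (T 2 (1 / 2 - e)) = _
      rw [h0, T_of_ge (by linarith)]
      ring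
    | succ k ih =>
      intro hk
      rw [show k + 1 + 2 = (k + 2) + 1 by ring, iterate_succ_apply', ih (by omega)]
      have hle : 2 ^ (k + 2) * e ≤ 1 / 2 := by
        rw [he, mul_one_div, div_le_div_iff₀ (by positivity) (by norm_num)]
        calc (2 : ℝ) ^ (k + 2) * 2 = 2 ^ (k + 3) := by ring
          _ ≤ 2 ^ (n + 1) := pow_le_pow_right₀ (by norm_num) (by omega)
          _ = 1 * 2 ^ (n + 1) := by ring
      rw [T_of_le hle]
      ring
  refine ⟨1 / 2 - e, ⟨by linarith, by linarith⟩, ?_, ?_, ?_⟩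
  · intro k hk2 hkn
    obtain ⟨k, rfl⟩ : ∃ k', k = k' + 2 := ⟨k - 2, by omega⟩
    rw [hk k (by omega), show k + 2 + 1 = (k + 1) + 2 by ring, hk (k + 1) (by omega)]
    have : (2 : ℝ) ^ (k + 2) < 2 ^ (k + 1 + 2) := pow_lt_pow_right₀ (by norm_num) (by omega)
    nlinarith
  · intro k hk2 hkn
    obtain ⟨k, rfl⟩ : ∃ k', k = k' + 2 := ⟨k - 2, by omega⟩
    rw [hk k (by omega)]
    have : 2 ^ (k + 2) * e ≤ 1 / 4 := by
      rw [he, mul_one_div, div_le_div_iff₀ (by positivity) (by norm_num)]
      calc (2 : ℝ) ^ (k + 2) * 4 = 2 ^ (k + 4) := by ring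
        _ ≤ 2 ^ (n + 1) := pow_le_pow_right₀ (by norm_num) (by omega)
        _ = 1 * 2 ^ (n + 1) := by ring
    linarith
  · rw [h0]; linarith

end Q78.Tent
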